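import Mathlib

/-!
# MP_01d970_co, Q1 is false

For every `c` there is a triangle-free graph `G` with a set `A` of at most `7` vertices such that
`G - A` has a crossing-free straight-line drawing in the plane (so `G` is `(0,7)`-apex), and such
that every 3-colouring of `G` has a monochromatic component with more than `c` vertices.
-/

set_option autoImplicit false

open Finset

namespace Pool.Agent.Results.MP_01d970_co.NoThreeColouring

/-- `H` has a straight-line drawing in the plane without crossings: distinct vertices are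
distinct points, no vertex lies on an edge of which it is not an end, and the segments of two
edges without a common end are disjoint.  (Consequently two edges with a common end meet only in
that end.)  Such a graph is planar, that is, it has Euler genus `0`. -/
def HasPlaneDrawing {V : Type} (H : SimpleGraph V) : Prop :=
  ∃ p : V → ℝ × ℝ, Function.Injective p ∧
    (∀ u v w, H.Adj u v → w ≠ u → w ≠ v → p w ∉ segment ℝ (p u) (p v)) ∧
    (∀ u v x y, H.Adj u v → H.Adj x y → x ≠ u → x ≠ v → y ≠ u → y ≠ v →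
      Disjoint (segment ℝ (p u) (p v)) (segment ℝ (p x) (p y)))

/-- The colouring `f` has clustering at most `c`: every monochromatic component, i.e. every
connected component of the subgraph induced by the vertices of one colour, has at most `c`
vertices. -/
def HasClustering {V : Type} (G : SimpleGraph V) (f : V → Fin 3) (c : ℕ) : Prop :=
  ∀ (i : Fin 3) (C : (G.induce {v | f v = i}).ConnectedComponent), C.supp.ncard ≤ c

/-! ### The graph -/

/-- Vertices of the example. -/
inductive Vert (K N L : ℕ) : Type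
  | apex (a : Fin 7) : Vert K N L
  | hub (t : Fin 3 ↪ Fin 7) (k : Fin K) : Vert K N L
  | ear (t : Fin 3 ↪ Fin 7) (k : Fin K) (i : Fin N) (s : Fin 2) : Vert K N L
  | path (t : Fin 3 ↪ Fin 7) (k : Fin K) (i : Fin N) (l : Fin L) : Vert K N L

variable {K N L : ℕ}

/-- Encoding of the vertices into a finite type. -/
def enc : Vert K N L → Fin 7 ⊕ ((Fin 3 ↪ Fin 7) × Fin K ×
    (Unit ⊕ (Fin N × Fin 2) ⊕ (Fin N × Fin L)))
  | .apex a => Sum.inl a
  | .hub t k => Sum.inr (t, k, Sum.inl ())
  | .ear t k i s => Sum.inr (t, k, Sum.inr (Sum.inl (i, s)))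
  | .path t k i l => Sum.inr (t, k, Sum.inr (Sum.inr (i, l)))

lemma enc_injective : Function.Injective (enc : Vert K N L → _) := by
  intro u v h
  cases u <;> cases v <;> simp_all [enc]

instance : Finite (Vert K N L) := Finite.of_injective _ enc_injective

/-- The three classes of the non-apex vertices. -/
def cls : Vert K N L → Fin 3
  | .apex _ => 0
  | .hub _ _ => 0
  | .ear _ _ _ _ => 1
  | .path _ _ _ l => if l.val % 2 = 0 then 0 else 2

/-- The (oriented) edges. -/
def E : Vert K N L → Vert K N L → Prop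
  | .apex a, .hub t k => a = t (cls (.hub t k : Vert K N L))
  | .apex a, .ear t k i s => a = t (cls (.ear t k i s : Vert K N L))
  | .apex a, .path t k i l => a = t (cls (.path t k i l : Vert K N L))
  | .hub t k, .ear t' k' _ _ => t = t' ∧ k = k'
  | .ear t k i s, .path t' k' i' l => t = t' ∧ k = k' ∧ i = i' ∧ l.val % 2 = s.val
  | .path t k i l, .path t' k' i' l' => t = t' ∧ k = k' ∧ i = i' ∧ l'.val = l.val + 1
  | _, _ => False

/-- A rank function, increasing along oriented edges. -/
def rk : Vert K N L → ℕ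
  | .apex _ => 0
  | .hub _ _ => 1
  | .ear _ _ _ _ => 2
  | .path _ _ _ l => 3 + l.val

lemma rk_lt {u v : Vert K N L} (h : E u v) : rk u < rk v := by
  cases u <;> cases v <;> simp_all [E, rk]
  all_goals omega

/-- The graph. -/
def GG (K N L : ℕ) : SimpleGraph (Vert K N L) where
  Adj u v := E u v ∨ E v u
  symm := ⟨fun _ _ h => h.symm⟩
  loopless := ⟨fun v h => by rcases h with h | h <;> exact absurd (rk_lt h) (lt_irrefl _)⟩

lemma no_trans {x y z : Vert K N L} (h1 : E x y) (h2 : E y z) (h3 : E x z) : False := by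
  rcases x with a | ⟨t, k⟩ | ⟨t, k, i, s⟩ | ⟨t, k, i, l⟩ <;>
  rcases y with a' | ⟨t', k'⟩ | ⟨t', k', i', s'⟩ | ⟨t', k', i', l'⟩ <;>
  rcases z with a'' | ⟨t'', k''⟩ | ⟨t'', k'', i'', s''⟩ | ⟨t'', k'', i'', l''⟩ <;>
  simp only [E, cls] at h1 h2 h3
  · obtain ⟨rfl, rfl⟩ := h2
    rw [h1] at h3
    exact absurd (t'.injective h3) (by decide)
  · obtain ⟨rfl, rfl, rfl, h2⟩ := h2
    rw [h1] at h3
    have h4 := t'.injective h3
    split_ifs at h4 <;> exact absurd h4 (by decide)
  · obtain ⟨rfl, rfl, rfl, h2⟩ := h2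
    rw [h1] at h3
    have h4 := t'.injective h3
    split_ifs at h4 with h5 h6 h6
    · omega
    · exact absurd h4 (by decide)
    · exact absurd h4 (by decide)
    · omega
  · omega
  · omega

lemma cliqueFree : (GG K N L).CliqueFree 3 := by
  classical
  intro s hs
  obtain ⟨a, b, c, hab, hac, hbc, -⟩ := SimpleGraph.is3Clique_iff.1 hs
  rcases hab with hab | hab <;> rcases hac with hac | hac <;> rcases hbc with hbc | hbc
  · exact no_trans hab hbc hac
  · exact no_trans hac hbc hab
  · have := rk_lt hab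
    have := rk_lt hac
    have := rk_lt hbc
    omega
  · exact no_trans hac hab hbc
  · exact no_trans hab hac hbc
  · have := rk_lt hab
    have := rk_lt hac
    have := rk_lt hbc
    omega
  · exact no_trans hbc hac hab
  · exact no_trans hbc hab hac

/-! ### The drawing of the graph without the apices -/

/-- Index of a copy. -/
noncomputable def cidx (t : Fin 3 ↪ Fin 7) (k : Fin K) : ℕ :=
  (Fintype.equivFin ((Fin 3 ↪ Fin 7) × Fin K) (t, k)).val

lemma cidx_inj {t t' : Fin 3 ↪ Fin 7} {k k' : Fin K} (h : cidx t k = cidx t' k') :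
    t = t' ∧ k = k' := by
  have h2 := (Fintype.equivFin ((Fin 3 ↪ Fin 7) × Fin K)).injective (Fin.ext h)
  simpa using h2

/-- Index of a ladder. -/
noncomputable def gidx (t : Fin 3 ↪ Fin 7) (k : Fin K) (i : Fin N) : ℕ :=
  cidx t k * N + i.val

lemma gidx_inj {t t' : Fin 3 ↪ Fin 7} {k k' : Fin K} {i i' : Fin N}
    (h : gidx t k i = gidx t' k' i') : t = t' ∧ k = k' ∧ i = i' := by
  have hi := i.isLt
  have hi' := i'.isLt
  have hN : 0 < N := by omega
  unfold gidx at h
  have h1 : cidx t k = cidx t' k' := by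
    have e1 : (cidx t k * N + i.val) / N = cidx t k := by
      rw [mul_comm, Nat.mul_add_div hN, Nat.div_eq_of_lt hi, add_zero]
    have e2 : (cidx t' k' * N + i'.val) / N = cidx t' k' := by
      rw [mul_comm, Nat.mul_add_div hN, Nat.div_eq_of_lt hi', add_zero]
    rw [← e1, ← e2, h]
  rw [h1] at h
  obtain ⟨ht, hk⟩ := cidx_inj h1
  exact ⟨ht, hk, Fin.ext (by omega)⟩

/-- The position of the non-apex vertices. -/
noncomputable def pos : Vert K N L → ℝ × ℝ
  | .apex _ => (0, 0)
  | .hub t k => (2 * ((cidx t k : ℝ) * N), 1)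
  | .ear t k i s => (2 * (gidx t k i : ℝ) + (s.val : ℝ), 0)
  | .path t k i l => (2 * (gidx t k i : ℝ) + 1 / 2, -((l.val : ℝ) + 1))

/-- `Wit x y v`: every edge or vertex through the point `(x, y)` has the end `v`. -/
def Wit (x y : ℝ) : Vert K N L → Prop
  | .apex _ => False
  | .hub t k => 0 < y ∧ 2 * ((cidx t k : ℝ) * N) ≤ x ∧ x + 1 ≤ 2 * (((cidx t k : ℝ) + 1) * N)
  | .ear t k i s => y ≤ 0 ∧ 2 * (gidx t k i : ℝ) ≤ x ∧ x ≤ 2 * (gidx t k i : ℝ) + 1 ∧
      ((s = 0 ∧ x < 2 * (gidx t k i : ℝ) + 1 / 2) ∨ (s = 1 ∧ 2 * (gidx t k i : ℝ) + 1 / 2 < x))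
  | .path t k i l => y < 0 ∧ x = 2 * (gidx t k i : ℝ) + 1 / 2 ∧ -((l.val : ℝ) + 2) < y ∧
      y ≤ -((l.val : ℝ) + 1)

lemma block_unique {e e' n : ℕ} {x : ℝ} (h1 : 2 * ((e : ℝ) * n) ≤ x)
    (h2 : x + 1 ≤ 2 * (((e : ℝ) + 1) * n)) (h1' : 2 * ((e' : ℝ) * n) ≤ x)
    (h2' : x + 1 ≤ 2 * (((e' : ℝ) + 1) * n)) : e = e' := by
  by_contra hne
  rcases Nat.lt_or_gt_of_ne hne with h | h
  · have h3 : (e + 1) * n ≤ e' * n := Nat.mul_le_mul_right _ h
    have h4 : ((e : ℝ) + 1) * n ≤ (e' : ℝ) * n := by exact_mod_cast h3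
    linarith
  · have h3 : (e' + 1) * n ≤ e * n := Nat.mul_le_mul_right _ h
    have h4 : ((e' : ℝ) + 1) * n ≤ (e : ℝ) * n := by exact_mod_cast h3
    linarith

lemma g_unique {g g' : ℕ} {x : ℝ} (h1 : 2 * (g : ℝ) ≤ x) (h2 : x ≤ 2 * (g : ℝ) + 1)
    (h1' : 2 * (g' : ℝ) ≤ x) (h2' : x ≤ 2 * (g' : ℝ) + 1) : g = g' := by
  have h3 : 2 * (g : ℝ) ≤ 2 * (g' : ℝ) + 1 := by linarith
  have h4 : 2 * (g' : ℝ) ≤ 2 * (g : ℝ) + 1 := by linarith
  have h5 : 2 * g ≤ 2 * g' + 1 := by exact_mod_cast h3
  have h6 : 2 * g' ≤ 2 * g + 1 := by exact_mod_cast h4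
  omega

lemma wit_unique {x y : ℝ} {u v : Vert K N L} (hu : Wit x y u) (hv : Wit x y v) : u = v := by
  rcases u with a | ⟨t, k⟩ | ⟨t, k, i, s⟩ | ⟨t, k, i, l⟩ <;>
  rcases v with a' | ⟨t', k'⟩ | ⟨t', k', i', s'⟩ | ⟨t', k', i', l'⟩ <;>
  simp only [Wit] at hu hv
  · -- hub hub
    obtain ⟨-, h1, h2⟩ := hu
    obtain ⟨-, h1', h2'⟩ := hv
    obtain ⟨rfl, rfl⟩ := cidx_inj (block_unique h1 h2 h1' h2')
    rfl
  · exact absurd hu.1 (not_lt.2 hv.1)
  · exact absurd hu.1 (not_lt.2 hv.1.le)
  · exact absurd hv.1 (not_lt.2 hu.1)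
  · -- ear ear
    obtain ⟨-, h1, h2, h3⟩ := hu
    obtain ⟨-, h1', h2', h3'⟩ := hv
    obtain ⟨rfl, rfl, rfl⟩ := gidx_inj (g_unique h1 h2 h1' h2')
    rcases h3 with ⟨rfl, h3⟩ | ⟨rfl, h3⟩ <;> rcases h3' with ⟨rfl, h3'⟩ | ⟨rfl, h3'⟩
    · rfl
    · exact absurd h3 (not_lt.2 h3'.le)
    · exact absurd h3 (not_lt.2 h3'.le)
    · rfl
  · -- ear path
    obtain ⟨-, h1, h2, h3⟩ := hu
    obtain ⟨-, h1', -, -⟩ := hv
    have hg := g_unique h1 h2 (by linarith) (by linarith)
    rw [hg] at h3
    rcases h3 with ⟨-, h3⟩ | ⟨-, h3⟩ <;> linarith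
  · exact absurd hv.1 (not_lt.2 hu.1.le)
  · -- path ear
    obtain ⟨-, h1, h2, h3⟩ := hv
    obtain ⟨-, h1', -, -⟩ := hu
    have hg := g_unique h1 h2 (by linarith) (by linarith)
    rw [hg] at h3
    rcases h3 with ⟨-, h3⟩ | ⟨-, h3⟩ <;> linarith
  · -- path path
    obtain ⟨-, h1, h2, h3⟩ := hu
    obtain ⟨-, h1', h2', h3'⟩ := hv
    have hg : gidx t k i = gidx t' k' i' := g_unique (x := x) (by linarith) (by linarith)
      (by linarith) (by linarith)
    obtain ⟨rfl, rfl, rfl⟩ := gidx_inj hg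
    have h4 : (l.val : ℝ) < l'.val + 1 := by linarith
    have h5 : (l'.val : ℝ) < l.val + 1 := by linarith
    have h6 : l.val < l'.val + 1 := by exact_mod_cast h4
    have h7 : l'.val < l.val + 1 := by exact_mod_cast h5
    have h8 : l = l' := Fin.ext (by omega)
    rw [h8]

lemma wit_self (hN : 0 < N) {v : Vert K N L} (hv : ∀ a, v ≠ .apex a) :
    Wit (pos v).1 (pos v).2 v := by
  have hN' : (1 : ℝ) ≤ N := by exact_mod_cast hN
  rcases v with a | ⟨t, k⟩ | ⟨t, k, i, s⟩ | ⟨t, k, i, l⟩
  · exact absurd rfl (hv a)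
  · simp only [Wit, pos]
    refine ⟨one_pos, le_refl _, ?_⟩
    nlinarith
  · simp only [Wit, pos]
    rcases (by omega : s.val = 0 ∨ s.val = 1) with hs | hs
    · have hs' : s = 0 := Fin.ext hs
      subst hs'
      refine ⟨le_refl _, by simp, by simp, Or.inl ⟨rfl, by simp⟩⟩
    · have hs' : s = 1 := Fin.ext hs
      subst hs'
      refine ⟨le_refl _, by simp, by simp, Or.inr ⟨rfl, ?_⟩⟩
      simp only [Fin.val_one, Nat.cast_one]
      norm_num
  · simp only [Wit, pos]
    have : (0 : ℝ) ≤ l.val := by positivity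
    refine ⟨by linarith, trivial, by linarith, le_refl _⟩

lemma conv_ge {a b m u v : ℝ} (ha : 0 ≤ a) (hb : 0 ≤ b) (hab : a + b = 1) (hu : m ≤ u)
    (hv : m ≤ v) : m ≤ a * u + b * v := by
  have h1 := mul_le_mul_of_nonneg_left hu ha
  have h2 := mul_le_mul_of_nonneg_left hv hb
  have h3 : a * m + b * m = m := by rw [← add_mul, hab, one_mul]
  linarith

lemma conv_le {a b m u v : ℝ} (ha : 0 ≤ a) (hb : 0 ≤ b) (hab : a + b = 1) (hu : u ≤ m)
    (hv : v ≤ m) : a * u + b * v ≤ m := by
  have h1 := mul_le_mul_of_nonneg_left hu ha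
  have h2 := mul_le_mul_of_nonneg_left hv hb
  have h3 : a * m + b * m = m := by rw [← add_mul, hab, one_mul]
  linarith

lemma wit_edge (hN : 0 < N) {u v : Vert K N L} (hu : ∀ a, u ≠ .apex a) (h : E u v)
    {q : ℝ × ℝ} (hq : q ∈ segment ℝ (pos u) (pos v)) : Wit q.1 q.2 u ∨ Wit q.1 q.2 v := by
  obtain ⟨a, b, ha, hb, hab, rfl⟩ := hq
  have hN' : (1 : ℝ) ≤ N := by exact_mod_cast hN
  rcases u with a' | ⟨t, k⟩ | ⟨t, k, i, s⟩ | ⟨t, k, i, l⟩ <;>
  rcases v with a'' | ⟨t', k'⟩ | ⟨t', k', i', s'⟩ | ⟨t', k', i', l'⟩ <;>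
  simp only [E] at h
  · exact absurd rfl (hu a')
  · exact absurd rfl (hu a')
  · exact absurd rfl (hu a')
  · -- hub ear
    obtain ⟨rfl, rfl⟩ := h
    simp only [Wit, pos, Prod.smul_mk, Prod.mk_add_mk, smul_eq_mul, mul_one, mul_zero, add_zero]
    have hi : (i'.val : ℝ) + 1 ≤ N := by exact_mod_cast i'.isLt
    have hi0 : (0 : ℝ) ≤ i'.val := by positivity
    have hg : (gidx t k i' : ℝ) = (cidx t k : ℝ) * N + i'.val := by simp [gidx]
    have hs : (s'.val : ℝ) ≤ 1 := by exact_mod_cast (by omega : s'.val ≤ 1)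
    have hs0 : (0 : ℝ) ≤ s'.val := by positivity
    rcases ha.lt_or_eq with ha' | ha'
    · left
      refine ⟨ha', conv_ge ha hb hab le_rfl (by rw [hg]; linarith), ?_⟩
      have := conv_le (m := 2 * (((cidx t k : ℝ) + 1) * N) - 1) (u := 2 * ((cidx t k : ℝ) * N))
        (v := 2 * (gidx t k i' : ℝ) + (s'.val : ℝ)) ha hb hab (by linarith)
        (by rw [hg]; linarith)
      linarith
    · right
      have hb1 : b = 1 := by linarith
      rw [← ha', hb1, zero_mul, zero_add, one_mul]
      have := wit_self hN (v := (Vert.ear t k i' s' : Vert K N L)) (by simp)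
      simpa only [Wit, pos] using this
  · -- ear path
    obtain ⟨rfl, rfl, rfl, h⟩ := h
    simp only [Wit, pos, Prod.smul_mk, Prod.mk_add_mk, smul_eq_mul, mul_zero, zero_add]
    have hl : (0 : ℝ) ≤ l'.val := by positivity
    have hbl : 0 ≤ b * (l'.val : ℝ) := mul_nonneg hb hl
    have hx : a * (2 * (gidx t k i : ℝ) + (s.val : ℝ)) + b * (2 * (gidx t k i : ℝ) + 1 / 2) =
        2 * (gidx t k i : ℝ) + (a * s.val + b * (1 / 2)) := by
      have : a * (2 * (gidx t k i : ℝ)) + b * (2 * (gidx t k i : ℝ)) = 2 * (gidx t k i : ℝ) := by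
        rw [← add_mul, hab, one_mul]
      linarith
    rw [hx]
    rcases ha.lt_or_eq with ha' | ha'
    · left
      refine ⟨by linarith, ?_⟩
      rcases (by omega : s.val = 0 ∨ s.val = 1) with hs | hs
      · have hs' : s = 0 := Fin.ext hs
        subst hs'
        simp only [Fin.val_zero, Nat.cast_zero, mul_zero, zero_add]
        refine ⟨by linarith, by linarith, Or.inl ⟨by trivial, by linarith⟩⟩
      · have hs' : s = 1 := Fin.ext hs
        subst hs'
        simp only [Fin.val_one, Nat.cast_one, mul_one]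
        refine ⟨by linarith, by linarith, Or.inr ⟨by trivial, by linarith⟩⟩
    · right
      have hb1 : b = 1 := by linarith
      rw [← ha', hb1]
      refine ⟨by linarith, by ring, by linarith, by linarith⟩
  · -- path path
    obtain ⟨rfl, rfl, rfl, h⟩ := h
    simp only [Wit, pos, Prod.smul_mk, Prod.mk_add_mk, smul_eq_mul]
    have hl : (0 : ℝ) ≤ l.val := by positivity
    have hl' : (l'.val : ℝ) = l.val + 1 := by exact_mod_cast h
    have hx : a * (2 * (gidx t k i : ℝ) + 1 / 2) + b * (2 * (gidx t k i : ℝ) + 1 / 2) =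
        2 * (gidx t k i : ℝ) + 1 / 2 := by
      rw [← add_mul, hab, one_mul]
    have hy : a * -((l.val : ℝ) + 1) + b * -((l'.val : ℝ) + 1) = -((l.val : ℝ) + 1) - b := by
      rw [hl']
      have : a = 1 - b := by linarith
      rw [this]; ring
    rw [hx, hy, hl']
    rcases ha.lt_or_eq with ha' | ha'
    · left
      refine ⟨by linarith, rfl, by linarith, by linarith⟩
    · right
      refine ⟨by linarith, rfl, by linarith, by linarith⟩

/-- The apices. -/
def apices (K N L : ℕ) : Finset (Vert K N L) :=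
  (Finset.univ : Finset (Fin 7)).map ⟨Vert.apex, fun a b h => by simpa using h⟩

lemma apices_card : (apices K N L).card = 7 := by
  simp [apices]

lemma mem_apices {v : Vert K N L} : v ∈ apices K N L ↔ ∃ a, v = .apex a := by
  simp only [apices, Finset.mem_map, Finset.mem_univ, true_and]
  exact ⟨fun ⟨a, h⟩ => ⟨a, h.symm⟩, fun ⟨a, h⟩ => ⟨a, h.symm⟩⟩

lemma plane (hN : 0 < N) : HasPlaneDrawing ((GG K N L).induce {v | v ∉ apices K N L}) := by
  have hna : ∀ (u : {v | v ∉ apices K N L}) (a : Fin 7), u.1 ≠ .apex a := by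
    intro u a h
    exact u.2 (mem_apices.2 ⟨a, h⟩)
  have hedge : ∀ u v : {v | v ∉ apices K N L},
      ((GG K N L).induce {v | v ∉ apices K N L}).Adj u v → ∀ q ∈ segment ℝ (pos u.1) (pos v.1),
      Wit q.1 q.2 u.1 ∨ Wit q.1 q.2 v.1 := by
    intro u v h q hq
    rcases (show E u.1 v.1 ∨ E v.1 u.1 from h) with h | h
    · exact wit_edge hN (hna u) h hq
    · rw [segment_symm] at hq
      exact (wit_edge hN (hna v) h hq).symm
  refine ⟨fun v => pos v.1, ?_, ?_, ?_⟩
  · intro u v h
    have h1 := wit_self hN (hna u)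
    have h2 := wit_self hN (hna v)
    simp only at h
    rw [← h] at h2
    exact Subtype.ext (wit_unique h1 h2)
  · intro u v w h hwu hwv hmem
    have h1 := wit_self hN (hna w)
    rcases hedge u v h _ hmem with h2 | h2
    · exact hwu (Subtype.ext (wit_unique h1 h2))
    · exact hwv (Subtype.ext (wit_unique h1 h2))
  · intro u v x y h h' hxu hxv hyu hyv
    rw [Set.disjoint_left]
    intro q hq hq'
    rcases hedge u v h q hq with h1 | h1 <;> rcases hedge x y h' q hq' with h2 | h2
    · exact hxu (Subtype.ext (wit_unique h2 h1))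
    · exact hyu (Subtype.ext (wit_unique h2 h1))
    · exact hxv (Subtype.ext (wit_unique h2 h1))
    · exact hyv (Subtype.ext (wit_unique h2 h1))

/-! ### The colouring argument -/

section colouring

variable {V : Type} [Finite V] {G : SimpleGraph V} {f : V → Fin 3} {c : ℕ}

/-- Vertices of one colour that are reachable from `x` inside this colour: at most `c`. -/
lemma card_le_of_reach (H : HasClustering G f c) {i : Fin 3} {x : V} (hx : f x = i)
    (S : Finset V) (hS : ∀ v ∈ S, ∃ h : f v = i,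
      (G.induce {v | f v = i}).Reachable ⟨x, hx⟩ ⟨v, h⟩) : S.card ≤ c := by
  have h1 := H i ((G.induce {v | f v = i}).connectedComponentMk ⟨x, hx⟩)
  refine le_trans ?_ h1
  rw [← Set.ncard_coe_finset, ← Set.ncard_image_of_injective _ Subtype.val_injective]
  refine Set.ncard_le_ncard ?_ (Set.toFinite _)
  intro v hv
  obtain ⟨h, hr⟩ := hS v hv
  refine ⟨⟨v, h⟩, ?_, rfl⟩
  rw [SimpleGraph.ConnectedComponent.mem_supp_iff, SimpleGraph.ConnectedComponent.eq]
  exact hr.symm

/-- At most `c` neighbours of `x` have the colour of `x`. -/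
lemma card_le_of_star (H : HasClustering G f c) {x : V}
    (S : Finset V) (hS : ∀ v ∈ S, f v = f x ∧ G.Adj x v) : S.card ≤ c := by
  refine card_le_of_reach H (rfl : f x = f x) S fun v hv => ?_
  obtain ⟨h1, h2⟩ := hS v hv
  refine ⟨h1, SimpleGraph.Adj.reachable ?_⟩
  exact h2

/-- Pigeonhole: if more than `m * c` indices have a vertex of the colour of its centre `x`, where
the centre is one of `m` vertices, then the clustering is not at most `c`. -/
lemma star_pigeon (H : HasClustering G f c) {ι : Type} [Fintype ι] {m : ℕ}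
    (v : ι → V) (hv : Function.Injective v) (x : Fin m → V) (j : ι → Fin m)
    (h : ∀ a, f (v a) = f (x (j a)) ∧ G.Adj (x (j a)) (v a)) : Fintype.card ι ≤ m * c := by
  classical
  by_contra hlt
  push Not at hlt
  obtain ⟨y, hy⟩ := Fintype.exists_lt_card_fiber_of_mul_lt_card (n := c) j
    (by simpa using hlt)
  have h2 := card_le_of_star H (x := x y) ((Finset.univ.filter fun a => j a = y).image v) (by
    intro w hw
    obtain ⟨a, ha, rfl⟩ := Finset.mem_image.1 hw
    have ha' := (Finset.mem_filter.1 ha).2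
    rw [← ha']
    exact h a)
  rw [Finset.card_image_of_injective _ hv] at h2
  omega

end colouring

/-- The number of the copy in which a vertex lies. -/
def cp : Vert K N L → Option (Fin K)
  | .apex _ => none
  | .hub _ k => some k
  | .ear _ k _ _ => some k
  | .path _ k _ _ => some k

lemma fin3_eq {a b x y : Fin 3} (hab : a ≠ b) (hx : x ≠ a) (hx' : x ≠ b) (hy : y ≠ a)
    (hy' : y ≠ b) : x = y := by
  omega

lemma no_clustering (c : ℕ) (f : Vert (3 * c + 1) (c + 1) ((2 * c + 1) * (c + 1)) → Fin 3) :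
    ¬ HasClustering (GG (3 * c + 1) (c + 1) ((2 * c + 1) * (c + 1))) f c := by
  classical
  intro H
  -- three apices of the same colour
  obtain ⟨i₀, hi₀⟩ := Fintype.exists_lt_card_fiber_of_mul_lt_card (n := 2)
    (fun a : Fin 7 => f (.apex a)) (by simp)
  have hne : Nonempty (Fin 3 ↪ {a : Fin 7 // f (.apex a) = i₀}) := by
    apply Function.Embedding.nonempty_of_card_le
    rw [Fintype.card_fin, Fintype.card_subtype]
    exact hi₀
  obtain ⟨t₀⟩ := hne
  obtain ⟨t, htf⟩ : ∃ t : Fin 3 ↪ Fin 7, ∀ j, f (.apex (t j)) = i₀ :=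
    ⟨t₀.trans (Function.Embedding.subtype _), fun j => (t₀ j).2⟩
  -- a copy without colour `i₀`
  have hcopy : ∃ k : Fin (3 * c + 1), f (.hub t k) ≠ i₀ ∧ (∀ i s, f (.ear t k i s) ≠ i₀) ∧
      (∀ i l, f (.path t k i l) ≠ i₀) := by
    by_contra hcon
    have h1 : ∀ k : Fin (3 * c + 1), ∃ v : Vert (3 * c + 1) (c + 1) ((2 * c + 1) * (c + 1)),
        f v = i₀ ∧ E (.apex (t (cls v))) v ∧ cp v = some k := by
      intro k
      by_contra hk
      push Not at hk
      refine hcon ⟨k, ?_, ?_, ?_⟩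
      · intro h
        exact hk (.hub t k) h rfl rfl
      · intro i s h
        exact hk (.ear t k i s) h rfl rfl
      · intro i l h
        exact hk (.path t k i l) h rfl rfl
    choose v hv1 hv2 hv3 using h1
    have hinj : Function.Injective v := by
      intro k k' h
      have h2 := hv3 k
      rw [h, hv3 k'] at h2
      exact (Option.some.inj h2).symm
    have h2 := star_pigeon H v hinj (fun j : Fin 3 => .apex (t j)) (fun k => cls (v k))
      (fun k => ⟨by rw [hv1 k, htf], Or.inl (hv2 k)⟩)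
    rw [Fintype.card_fin] at h2
    omega
  obtain ⟨k, hk1, hk2, hk3⟩ := hcopy
  -- a ladder whose two ears both differ from the hub
  have hladder : ∃ i : Fin (c + 1), ∀ s, f (.ear t k i s) ≠ f (.hub t k) := by
    by_contra hcon
    push Not at hcon
    choose s hs using hcon
    have h2 := star_pigeon H (fun i => Vert.ear t k i (s i)) (fun i i' h => by
      simp only [Vert.ear.injEq] at h
      exact h.2.2.1) (fun _ : Fin 1 => .hub t k) (fun _ => 0)
      (fun i => ⟨hs i, Or.inl ⟨rfl, rfl⟩⟩)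
    rw [Fintype.card_fin] at h2
    omega
  obtain ⟨i, hi⟩ := hladder
  -- a block of the path with the colour of the hub
  have hlt : ∀ (b : Fin (2 * c + 1)) (r : Fin (c + 1)),
      b.val * (c + 1) + r.val < (2 * c + 1) * (c + 1) := by
    intro b r
    have h1 : (b.val + 1) * (c + 1) ≤ (2 * c + 1) * (c + 1) := Nat.mul_le_mul_right _ b.isLt
    have h2 := r.isLt
    have h3 : (b.val + 1) * (c + 1) = b.val * (c + 1) + (c + 1) := by ring
    omega
  have hblock : ∃ b : Fin (2 * c + 1), ∀ r : Fin (c + 1),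
      f (.path t k i ⟨b.val * (c + 1) + r.val, hlt b r⟩) = f (.hub t k) := by
    by_contra hcon
    push Not at hcon
    choose r hr using hcon
    have h2 := star_pigeon H (m := 2)
      (fun b => Vert.path t k i ⟨b.val * (c + 1) + (r b).val, hlt b (r b)⟩)
      (fun b b' h => by
        simp only [Vert.path.injEq, Fin.mk.injEq, true_and] at h
        have e1 : (b.val * (c + 1) + (r b).val) / (c + 1) = b.val := by
          rw [mul_comm, Nat.mul_add_div (Nat.succ_pos c), Nat.div_eq_of_lt (r b).isLt, add_zero]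
        have e2 : (b'.val * (c + 1) + (r b').val) / (c + 1) = b'.val := by
          rw [mul_comm, Nat.mul_add_div (Nat.succ_pos c), Nat.div_eq_of_lt (r b').isLt, add_zero]
        exact Fin.ext (by rw [← e1, ← e2, h]))
      (fun s => .ear t k i s)
      (fun b => ⟨(b.val * (c + 1) + (r b).val) % 2, Nat.mod_lt _ (by norm_num)⟩)
      (fun b => ⟨fin3_eq hk1 (hr b) (hk3 _ _) (hi _) (hk2 _ _), Or.inl ⟨rfl, rfl, rfl, rfl⟩⟩)
    rw [Fintype.card_fin] at h2
    omega
  obtain ⟨b, hb⟩ := hblock
  -- this block is too large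
  have hreach : ∀ (n : ℕ) (hn : n < c + 1),
      ((GG (3 * c + 1) (c + 1) ((2 * c + 1) * (c + 1))).induce
        {v | f v = f (.hub t k)}).Reachable
      ⟨.path t k i ⟨b.val * (c + 1) + 0, hlt b ⟨0, Nat.succ_pos c⟩⟩, hb ⟨0, Nat.succ_pos c⟩⟩
      ⟨.path t k i ⟨b.val * (c + 1) + n, hlt b ⟨n, hn⟩⟩, hb ⟨n, hn⟩⟩ := by
    intro n
    induction n with
    | zero => intro hn; exact SimpleGraph.Reachable.refl _
    | succ n ih =>
      intro hn
      refine (ih (Nat.lt_of_succ_lt hn)).trans (SimpleGraph.Adj.reachable ?_)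
      exact Or.inl ⟨rfl, rfl, rfl, rfl⟩
  have hcard := card_le_of_reach H (hb ⟨0, Nat.succ_pos c⟩)
    ((Finset.univ : Finset (Fin (c + 1))).image
      fun r => Vert.path t k i ⟨b.val * (c + 1) + r.val, hlt b r⟩) (by
      intro v hv
      obtain ⟨r, -, rfl⟩ := Finset.mem_image.1 hv
      exact ⟨hb r, hreach r.val r.isLt⟩)
  rw [Finset.card_image_of_injective _ (by
    intro r r' h
    simp only [Vert.path.injEq, Fin.mk.injEq, true_and] at h
    exact Fin.ext (by omega)), Finset.card_univ, Fintype.card_fin] at hcard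
  omega

/-- **Main theorem.** For every `c` there are a finite triangle-free graph `G` and a set `A` of at
most `7` vertices such that `G - A` has a crossing-free straight-line drawing in the plane, and
such that no colouring of the vertices with three colours has clustering at most `c`. -/
theorem result : ∀ c : ℕ, ∃ (V : Type) (_ : Fintype V) (G : SimpleGraph V) (A : Finset V),
    A.card ≤ 7 ∧ HasPlaneDrawing (G.induce {v | v ∉ A}) ∧ G.CliqueFree 3 ∧
    ∀ f : V → Fin 3, ¬ HasClustering G f c := by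
  intro c
  refine ⟨Vert (3 * c + 1) (c + 1) ((2 * c + 1) * (c + 1)), Fintype.ofFinite _, GG _ _ _,
    apices _ _ _, apices_card.le, plane (Nat.succ_pos c), cliqueFree, no_clustering c⟩

end Pool.Agent.Results.MP_01d970_co.NoThreeColouring
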